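import Pool.Agent.W477.GM.Stms

set_option maxHeartbeats 1000000
set_option linter.all false

namespace Pool.Agent.W477.GM.H922

open Pool.Agent.W477.GM

section

variable {P : Type 1} [PartialOrder P] [OrderTop P] (S : SysData P)

theorem common_support (hS : SysAx S) (hs : HsF P S) (v : ℕ → Nm P) (hv : ∀ i, HS S (v i))
    (n : ℕ) : ∃ e, ∀ g, g ∈ S.fix e → ∀ i, i ≤ n → ∀ p, feq (act g (v i)) (v i) p := by
  induction n with
  | zero =>
    obtain ⟨e, he⟩ := hs.supp (v 0) (hv 0)
    exact ⟨e, fun g hg i hi p => by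
      obtain rfl : i = 0 := by omega
      exact he g hg p⟩
  | succ n ih =>
    obtain ⟨e, he⟩ := ih
    obtain ⟨e', he'⟩ := hs.supp (v (n+1)) (hv _)
    obtain ⟨e'', h''⟩ := hS.dir e e'
    refine ⟨e'', fun g hg i hi p => ?_⟩
    rcases Nat.lt_or_ge n i with h | h
    · obtain rfl : i = n + 1 := by omega
      exact he' g (h'' g hg).2 p
    · exact he g (h'' g hg).1 i h p

end

def repH (φ : Fm) (m : ℕ) : Fm :=
  .all 0 (.imp (.mem 0 m) (.ex (m + 2) (.all 1 (.iff φ (.eq 1 (m + 2))))))

def repE (φ : Fm) (m : ℕ) : Fm := .ex 0 (.and (.mem 0 m) φ)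

theorem bd_repE (φ : Fm) (m : ℕ) (hb : φ.bd ≤ m) (hm : 2 ≤ m) : (repE φ m).bd ≤ m + 1 := by
  simp only [repE, Fm.ex, Fm.and, Fm.neg, Fm.bd]
  omega

theorem bd_repH (φ : Fm) (m : ℕ) (hb : φ.bd ≤ m) (hm : 2 ≤ m) : (repH φ m).bd ≤ m + 3 := by
  simp only [repH, Fm.ex, Fm.iff, Fm.and, Fm.neg, Fm.bd]
  omega

theorem lab_mono {P : Type 1} [PartialOrder P] (U : P → Prop) {p q : P} (h : q ≤ p)
    (hp : Lab U p) : Lab U q := by
  obtain ⟨u, hu, hpu⟩ := hp
  exact ⟨u, hu, h.trans hpu⟩

/-- uniqueness extracted from the hypothesis of Replacement -/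
theorem uniq {P : Type 1} [PartialOrder P] [OrderTop P] (S : SysData P) (eqf : EqF P)
    (fc : FcF P (HS S)) (φ : Fm) (m : ℕ) (hb : φ.bd ≤ m) (hm : 2 ≤ m) (w : ℕ → Nm P) (s : P)
    (hH : Fc (HS S) (repH φ m) w s) (y : Nm P) (hy : HS S y) (hmem : fmem y (w m) s)
    (z z' : Nm P) (hz : HS S z) (hz' : HS S z')
    (h : Fc (HS S) φ (Function.update (Function.update w 1 z) 0 y) s)
    (h' : Fc (HS S) φ (Function.update (Function.update w 1 z') 0 y) s) :
    ∃ r, r ≤ s ∧ feq z z' r := by
  have h1 := hH y hy s le_rfl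
  have h2 : Fc (HS S) (.mem 0 m) (Function.update w 0 y) s := by
    show fmem (Function.update w 0 y 0) (Function.update w 0 y m) s
    rw [Function.update_self, Function.update_of_ne (by omega)]
    exact hmem
  have h3 := h1 h2
  rw [fc.ex] at h3
  obtain ⟨r, hr, t, ht, h4⟩ := h3 s le_rfl
  have key : ∀ c, HS S c → Fc (HS S) φ (Function.update (Function.update w 1 c) 0 y) s →
      feq c t r := by
    intro c hc h5
    have h6 := h4 c hc
    rw [fc.iff] at h6
    have h7 := (h6 r le_rfl).1
    have h8 : Fc (HS S) φ (Function.update (Function.update (Function.update w 0 y) (m + 2) t) 1 c) r := by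
      rw [fc.bd φ _ (Function.update (Function.update w 1 c) 0 y) r]
      · exact fc.mono _ _ _ _ hr h5
      · intro i hi
        by_cases h0 : i = 0
        · subst h0
          rw [Function.update_of_ne (by omega), Function.update_of_ne (by omega),
            Function.update_self, Function.update_self]
        · by_cases h1 : i = 1
          · subst h1
            rw [Function.update_self, Function.update_of_ne (by omega), Function.update_self]
          · rw [Function.update_of_ne h1, Function.update_of_ne (by omega),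
              Function.update_of_ne h0, Function.update_of_ne h0, Function.update_of_ne h1]
    have h9 := h7 h8
    have h10 : feq (Function.update (Function.update (Function.update w 0 y) (m + 2) t) 1 c 1)
      (Function.update (Function.update (Function.update w 0 y) (m + 2) t) 1 c (m + 2)) r := h9
    rw [Function.update_self, Function.update_of_ne (by omega), Function.update_self] at h10
    exact h10
  exact ⟨r, hr, eqf.trans _ _ _ _ (key z hz h) (eqf.symm _ _ _ (key z' hz' h'))⟩

theorem zf3_holds (h : P_EQ) (h1 : P_ACT) (h2 : P_FC) (h3 : P_HS) (h4 : P_SET) (h5 : P_DEC)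
    (h6 : P_ORB) : P_ZF3 := by
  intro P _ _ S hS φ m hb hm v hv p
  have eqf := h P
  have hs := h3 P S hS
  have fc := h2 P (HS S)
  have hdec := (h5 P S hS).1
  -- the parameters
  set w : ℕ → Nm P := fun i => v (min i (m + 2)) with hw
  have hwv : ∀ i, i < m + 3 → w i = v i := by
    intro i hi
    rw [hw]
    show v (min i (m + 2)) = v i
    rw [min_eq_left (by omega)]
  have hwS : ∀ i, HS S (w i) := fun i => hv _
  obtain ⟨e, he⟩ := common_support S hS hs v hv (m + 2)
  have hew : ∀ g, g ∈ S.fix e → ∀ i p, feq (act g (w i)) (w i) p :=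
    fun g hg i p => he g hg _ (min_le_right _ _) p
  obtain ⟨a, ha⟩ := hs.livs ℕ w hwS
  rcases hx : w m with ⟨ι, U, yy⟩
  have hxS : HS S (.mk ι U yy) := by rw [← hx]; exact hwS m
  have hyS : ∀ i, HS S (yy i) := hs.child ι U yy hxS
  have hxa : Liv S a (.mk ι U yy) := by rw [← hx]; exact ha m
  have hya : ∀ i, Liv S a (yy i) := hxa.2
  haveI : Small.{0} {p : P // S.rho a p = p} := hS.small a
  -- the chosen conditions and names
  let C0 : Type := Shrink.{0} {p : P // S.rho a p = p}
  let cv : C0 → P := fun u => ((equivShrink.{0} {p : P // S.rho a p = p}).symm u).1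
  have hch : ∀ (k : ι × C0), ∃ c : P × Nm P, HS S c.2 ∧
      ((∃ q' y', HS S y' ∧ S.rho a q' = cv k.2 ∧
        Fc (HS S) φ (Function.update (Function.update w 1 y') 0 (yy k.1)) q') →
      (S.rho a c.1 = cv k.2 ∧
        Fc (HS S) φ (Function.update (Function.update w 1 c.2) 0 (yy k.1)) c.1)) := by
    intro k
    by_cases hk : ∃ q' y', HS S y' ∧ S.rho a q' = cv k.2 ∧
        Fc (HS S) φ (Function.update (Function.update w 1 y') 0 (yy k.1)) q'
    · obtain ⟨q', y', hy', hq', hf⟩ := hk
      exact ⟨(q', y'), hy', fun _ => ⟨hq', hf⟩⟩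
    · exact ⟨(⊤, v 0), hv 0, fun h => absurd h hk⟩
  choose ch hchS hchP using hch
  have horb : ∀ k : ι × C0, ∃ (κ : Type) (z : κ → Nm P), (∀ l, ∃ g, g ∈ S.G ∧ z l = act g (ch k).2) ∧
      ∀ g, g ∈ S.G → ∃ l, act g (ch k).2 = z l := fun k => h6 P S hS _ (hchS k)
  choose κ z hz1 hz2 using horb
  let Z : (Σ k : ι × C0, κ k) → Nm P := fun l => z l.1 l.2
  have hZS : ∀ l, HS S (Z l) := by
    intro l
    obtain ⟨g, hg, he⟩ := hz1 l.1 l.2
    show HS S (z l.1 l.2)
    rw [he]
    exact hs.act g hg _ (hchS _)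
  obtain ⟨a', ha'⟩ := hs.livs _ Z hZS
  -- the predicate
  let F : Nm P → P → Prop := fun y r => Fc (HS S) (repH φ m) w r ∧
    Fc (HS S) (repE φ m) (Function.update w 1 y) r
  have hequiv : ∀ g, g ∈ S.G → ∀ ψ V p, Fc (HS S) ψ V p →
      Fc (HS S) ψ (fun i => act g (V i)) (g p) := by
    intro g hg ψ V p hp
    exact (fc.equiv g (fun x hx => hs.act g hg x hx)
      (fun x hx => hs.act g⁻¹ (hS.inv g hg) x hx) ψ V p).2 hp
  obtain ⟨Y, hYS, hY⟩ := h4 P S hS _ Z F hZS
    (fun y p q _ hq hF => ⟨fc.mono _ _ _ _ hq hF.1, fc.mono _ _ _ _ hq hF.2⟩)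
    (fun y p _ hd => ⟨fc.dense _ _ _ fun q hq => by
        obtain ⟨r, hr, hF⟩ := hd q hq
        exact ⟨r, hr, hF.1⟩,
      fc.dense _ _ _ fun q hq => by
        obtain ⟨r, hr, hF⟩ := hd q hq
        exact ⟨r, hr, hF.2⟩⟩)
    (fun y y' p _ _ hyy hF => ⟨hF.1, fc.congr _ _ _ _ (fun i => by
        by_cases h1 : i = 1
        · subst h1; rw [Function.update_self, Function.update_self]; exact hyy
        · rw [Function.update_of_ne h1, Function.update_of_ne h1]; exact eqf.refl _ _) hF.2⟩)
    ⟨e, fun g hg y p _ hF => by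
      have hgG := hS.fsub e g hg
      refine ⟨fc.congr _ _ _ _ (fun i => hew g hg i (g p)) (hequiv g hgG _ _ _ hF.1), ?_⟩
      refine fc.congr _ _ _ _ (fun i => ?_) (hequiv g hgG _ _ _ hF.2)
      by_cases h1 : i = 1
      · subst h1; rw [Function.update_self, Function.update_self]; exact eqf.refl _ _
      · rw [Function.update_of_ne h1, Function.update_of_ne h1]; exact hew g hg i (g p)⟩
    ⟨max a a', fun k p hF => by
      have hw' : ∀ i, Liv S (max a a') (w i) := fun i => hs.liv_mono _ _ _ (le_max_left _ _) (ha i)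
      have hZ' : Liv S (max a a') (Z k) := hs.liv_mono _ _ _ (le_max_right _ _) (ha' k)
      refine ⟨hdec _ _ _ _ hw' hF.1, hdec _ _ _ _ (fun i => ?_) hF.2⟩
      by_cases h1 : i = 1
      · subst h1; rw [Function.update_self]; exact hZ'
      · rw [Function.update_of_ne h1]; exact hw' i⟩
    (by
      intro y r hy hF
      obtain ⟨hF1, hF2⟩ := hF
      have hF3 : ∀ q, q ≤ r → ∃ r', r' ≤ q ∧ ∃ x0, HS S x0 ∧ Fc (HS S) (.and (.mem 0 m) φ)
          (Function.update (Function.update w 1 y) 0 x0) r' := by
        have := hF2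
        unfold repE at this
        rwa [fc.ex] at this
      obtain ⟨r1, hr1, x0, hx0, hF4⟩ := hF3 r le_rfl
      rw [fc.and] at hF4
      obtain ⟨hF5, hF6⟩ := hF4
      have hF7 : fmem x0 (.mk ι U yy) r1 := by
        have h0 : fmem (Function.update (Function.update w 1 y) 0 x0 0)
          (Function.update (Function.update w 1 y) 0 x0 m) r1 := hF5
        rw [Function.update_self, Function.update_of_ne (by omega),
          Function.update_of_ne (by omega), hx] at h0
        exact h0
      obtain ⟨r2, hr2, j, hlab, hfeq⟩ := hF7 r1 le_rfl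
      have hF8 : Fc (HS S) φ (Function.update (Function.update w 1 y) 0 (yy j)) r2 := by
        refine fc.congr _ _ _ _ (fun i => ?_) (fc.mono _ _ _ _ hr2 hF6)
        by_cases h0 : i = 0
        · subst h0; rw [Function.update_self, Function.update_self]; exact hfeq
        · rw [Function.update_of_ne h0, Function.update_of_ne h0]; exact eqf.refl _ _
      have hrr : S.rho a (S.rho a r2) = S.rho a r2 := hS.rho_rho a a r2 le_rfl
      let u : C0 := equivShrink.{0} {p : P // S.rho a p = p} ⟨S.rho a r2, hrr⟩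
      have hu : cv u = S.rho a r2 := by
        show ((equivShrink.{0} {p : P // S.rho a p = p}).symm
          (equivShrink.{0} {p : P // S.rho a p = p} ⟨S.rho a r2, hrr⟩)).1 = _
        rw [Equiv.symm_apply_apply]
      obtain ⟨hc1, hc2⟩ := hchP (j, u) ⟨r2, y, hy, hu.symm, hF8⟩
      have hc1' : S.rho a (ch (j, u)).1 = S.rho a r2 := by rw [hc1]; exact hu
      obtain ⟨g, hgG, hgfix, s, hs1, hs2⟩ := hS.hom a r2 (ch (j, u)).1 (le_of_eq hc1')
      have hF9 : Fc (HS S) φ (Function.update (Function.update w 1 (act g (ch (j, u)).2)) 0 (yy j)) s := by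
        have h0 := hequiv g hgG _ _ _ hc2
        have h1 : (fun i => act g (Function.update (Function.update w 1 (ch (j, u)).2) 0 (yy (j, u).1) i)) =
            Function.update (Function.update w 1 (act g (ch (j, u)).2)) 0 (yy j) := by
          funext i
          by_cases h0 : i = 0
          · subst h0; rw [Function.update_self, Function.update_self]
            exact hs.fix a g hgfix _ (hya j)
          · by_cases h1 : i = 1
            · subst h1
              rw [Function.update_of_ne h0, Function.update_of_ne h0, Function.update_self,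
                Function.update_self]
            · rw [Function.update_of_ne h0, Function.update_of_ne h0, Function.update_of_ne h1,
                Function.update_of_ne h1]
              exact hs.fix a g hgfix _ (ha i)
        rw [h1] at h0
        exact fc.mono _ _ _ _ hs2 h0
      have hmem : fmem (yy j) (w m) s := by
        rw [hx]
        exact eqf.child ι U yy j s (lab_mono _ hs1 hlab)
      have hHs : Fc (HS S) (repH φ m) w s :=
        fc.mono _ _ _ _ (hs1.trans (hr2.trans hr1)) hF1
      obtain ⟨r3, hr3, hfin⟩ := uniq S eqf fc φ m hb hm w s hHs (yy j) (hyS j) hmem y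
        (act g (ch (j, u)).2) hy (hs.act g hgG _ (hchS _)) (fc.mono _ _ _ _ hs1 hF8) hF9
      obtain ⟨l, hl⟩ := hz2 (j, u) g hgG
      refine ⟨r3, hr3.trans (hs1.trans (hr2.trans hr1)), ⟨(j, u), l⟩, ?_⟩
      show feq y (z (j, u) l) r3
      rw [← hl]
      exact hfin)
  -- conclusion
  show Fc (HS S) (.imp (repH φ m) (.ex (m + 1) (.all 1 (.iff (.mem 1 (m + 1)) (repE φ m))))) v p
  intro q hq hH
  rw [fc.ex]
  intro q' hq'
  refine ⟨q', le_rfl, Y, hYS, ?_⟩
  intro c hc
  rw [fc.iff]
  intro r hr
  have hHw : Fc (HS S) (repH φ m) w r := by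
    rw [fc.bd (repH φ m) w v r (fun i hi => hwv i (lt_of_lt_of_le hi (bd_repH φ m hb hm)))]
    exact fc.mono _ _ _ _ (hr.trans hq') hH
  have e1 : Fc (HS S) (.mem 1 (m + 1)) (Function.update (Function.update v (m + 1) Y) 1 c) r ↔
      fmem c Y r := by
    show fmem (Function.update (Function.update v (m + 1) Y) 1 c 1)
      (Function.update (Function.update v (m + 1) Y) 1 c (m + 1)) r ↔ _
    rw [Function.update_self, Function.update_of_ne (by omega), Function.update_self]
  have e2 : Fc (HS S) (repE φ m) (Function.update (Function.update v (m + 1) Y) 1 c) r ↔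
      Fc (HS S) (repE φ m) (Function.update w 1 c) r := by
    apply fc.bd
    intro i hi
    have hi' := lt_of_lt_of_le hi (bd_repE φ m hb hm)
    by_cases h1 : i = 1
    · subst h1; rw [Function.update_self, Function.update_self]
    · rw [Function.update_of_ne h1, Function.update_of_ne (by omega), Function.update_of_ne h1]
      exact (hwv i (by omega)).symm
  rw [e1, e2, hY c r hc]
  exact ⟨fun hF => hF.2, fun hE => ⟨hHw, hE⟩⟩

end Pool.Agent.W477.GM.H922
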